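import Mathlib

open Filter Topology

noncomputable section

namespace Pool.Agent.Results.MP_12cf7c_an.NoPoint

/-- Euclidean space `ℝ^n`. -/
abbrev E (n : ℕ) := EuclideanSpace ℝ (Fin n)

/-- The torus `ℝ^n / ℤ^n`. -/
abbrev T (n : ℕ) := Fin n → UnitAddCircle

/-- The covering map `ℝ^n → ℝ^n / ℤ^n`. -/
def proj {n : ℕ} (y : E n) : T n := fun i => ((y i : ℝ) : UnitAddCircle)

/-- Global continuous viscosity subsolution of `H(x, Du) = c` on the torus. -/
def IsSub {n : ℕ} (H : T n → E n → ℝ) (c : ℝ) (u : T n → ℝ) : Prop :=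
  Continuous u ∧ ∀ φ : E n → ℝ, ContDiff ℝ 1 φ → ∀ y : E n,
    IsLocalMax (fun z => u (proj z) - φ z) y → H (proj y) (gradient φ y) ≤ c

/-- The viscosity supersolution inequality for `H(x, Du) = c` at the point `x` of the torus. -/
def SuperAt {n : ℕ} (H : T n → E n → ℝ) (c : ℝ) (u : T n → ℝ) (x : T n) : Prop :=
  ∀ φ : E n → ℝ, ContDiff ℝ 1 φ → ∀ y : E n, proj y = x →
    IsLocalMin (fun z => u (proj z) - φ z) y → c ≤ H (proj y) (gradient φ y)

/-- `H(x,p)/|p| → +∞` as `|p| → ∞`, uniformly in `x`. -/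
def Superlinear {n : ℕ} (H : T n → E n → ℝ) : Prop :=
  ∀ M : ℝ, ∃ R : ℝ, ∀ x p, R ≤ ‖p‖ → M * ‖p‖ ≤ H x p

def N (t : ℝ) : ℝ := ‖((t : ℝ) : UnitAddCircle)‖

lemma N_eq (j : ℤ) (t : ℝ) (h : |t - j| ≤ 1 / 2) : N t = |t - j| := by
  have h1 : ((t : ℝ) : UnitAddCircle) = ((t - j : ℝ) : UnitAddCircle) := by
    rw [AddCircle.coe_sub]
    have : (((j : ℤ) : ℝ) : UnitAddCircle) = 0 := by
      rw [AddCircle.coe_eq_zero_iff]
      exact ⟨j, by simp⟩
    rw [this, sub_zero]
  unfold N
  rw [h1]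
  exact (AddCircle.norm_coe_eq_abs_iff (p := (1 : ℝ)) one_ne_zero).2 (by simpa using h)

lemma N_lip (s t : ℝ) : |N s - N t| ≤ |s - t| := by
  unfold N
  refine (abs_norm_sub_norm_le _ _).trans ?_
  rw [← AddCircle.coe_sub]
  exact QuotientAddGroup.norm_mk_le_norm

lemma N_loc (a : ℝ) : (∀ᶠ t in 𝓝 a, |N t - N a| = |t - a|) ∧
    (‖((a : ℝ) : UnitAddCircle) + ((a : ℝ) : UnitAddCircle)‖ ≠ 0 →
      ∃ s : ℝ, s ^ 2 = 1 ∧ ∀ᶠ t in 𝓝 a, N t = N a + s * (t - a)) := by
  have hr := abs_sub_round a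
  set j := round a with hj
  have key : ∀ k : ℤ, a + a = k →
      ‖((a : ℝ) : UnitAddCircle) + ((a : ℝ) : UnitAddCircle)‖ = 0 := by
    intro k hk
    rw [← AddCircle.coe_add, hk, norm_eq_zero, AddCircle.coe_eq_zero_iff]
    exact ⟨k, by simp⟩
  have hNa := N_eq j a hr
  rcases lt_trichotomy (a - j) 0 with h | h | h
  · rcases (abs_le.1 hr).1.lt_or_eq with h2 | h2
    · have : ∀ᶠ t in 𝓝 a, N t = N a + (-1) * (t - a) := by
        filter_upwards [Ioo_mem_nhds (show (j : ℝ) - 1 / 2 < a by linarith)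
          (show a < (j : ℝ) by linarith)] with t ht
        rw [N_eq j t (by rw [abs_le]; constructor <;> linarith [ht.1, ht.2]), hNa,
          abs_of_neg h, abs_of_neg (by linarith [ht.2])]
        ring
      refine ⟨?_, fun _ => ⟨-1, by norm_num, this⟩⟩
      filter_upwards [this] with t ht
      rw [ht, ← abs_neg]; congr 1; ring
    · refine ⟨?_, fun h3 => (h3 (key (2 * j - 1) (by push_cast; linarith))).elim⟩
      filter_upwards [Ioo_mem_nhds (show a - 1 / 2 < a by linarith)
          (show a < a + 1 / 2 by linarith)] with t ht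
      rcases le_total t a with h4 | h4
      · rw [N_eq (j - 1) t (by push_cast; rw [abs_le]; constructor <;> linarith [ht.1, ht.2]),
          hNa, abs_of_neg h, abs_of_pos (a := t - _) (by push_cast; linarith [ht.1])]
        congr 1; push_cast; linarith
      · rw [N_eq j t (by rw [abs_le]; constructor <;> linarith [ht.1, ht.2]),
          hNa, abs_of_neg h, abs_of_neg (a := t - _) (by linarith [ht.2]), ← abs_neg]
        congr 1; ring
  · refine ⟨?_, fun h3 => (h3 (key (2 * j) (by push_cast; linarith))).elim⟩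
    filter_upwards [Ioo_mem_nhds (show a - 1 / 2 < a by linarith)
          (show a < a + 1 / 2 by linarith)] with t ht
    rw [N_eq j t (by rw [abs_le]; constructor <;> linarith [ht.1, ht.2]), hNa, h, abs_zero,
      sub_zero, abs_abs]
    congr 1; linarith
  · rcases (abs_le.1 hr).2.lt_or_eq with h2 | h2
    · have : ∀ᶠ t in 𝓝 a, N t = N a + 1 * (t - a) := by
        filter_upwards [Ioo_mem_nhds (show (j : ℝ) < a by linarith)
          (show a < (j : ℝ) + 1 / 2 by linarith)] with t ht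
        rw [N_eq j t (by rw [abs_le]; constructor <;> linarith [ht.1, ht.2]), hNa,
          abs_of_pos h, abs_of_pos (by linarith [ht.1])]
        ring
      refine ⟨?_, fun _ => ⟨1, by norm_num, this⟩⟩
      filter_upwards [this] with t ht
      rw [ht]; congr 1; ring
    · refine ⟨?_, fun h3 => (h3 (key (2 * j + 1) (by push_cast; linarith))).elim⟩
      filter_upwards [Ioo_mem_nhds (show a - 1 / 2 < a by linarith)
          (show a < a + 1 / 2 by linarith)] with t ht
      rcases le_total t a with h4 | h4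
      · rw [N_eq j t (by rw [abs_le]; constructor <;> linarith [ht.1, ht.2]),
          hNa, abs_of_pos h, abs_of_pos (a := t - _) (by linarith [ht.1])]
        congr 1; ring
      · rw [N_eq (j + 1) t (by push_cast; rw [abs_le]; constructor <;> linarith [ht.1, ht.2]),
          hNa, abs_of_pos h, abs_of_neg (a := t - _) (by push_cast; linarith [ht.2]), ← abs_neg]
        congr 1; push_cast; linarith

lemma one_dim (a p e : ℝ) (he : e ^ 2 = 1) (ψ : ℝ → ℝ) (hψ : HasDerivAt ψ p 0)
    (hm : IsLocalMax (fun t => e * 2 * N (a + t) - ψ t) 0) :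
    (p ^ 2 - 4) * (p ^ 2 - ‖((a : ℝ) : UnitAddCircle) + ((a : ℝ) : UnitAddCircle)‖ ^ 2) ≤ 0 := by
  have habs : |e| = 1 := by
    rw [← sq_eq_sq₀ (abs_nonneg _) zero_le_one, sq_abs, he, one_pow]
  by_cases h : ‖((a : ℝ) : UnitAddCircle) + ((a : ℝ) : UnitAddCircle)‖ = 0
  · rw [h]
    have hlow : ∀ᶠ t in 𝓝 (0 : ℝ), ψ 0 - 2 * |t| ≤ ψ t := by
      filter_upwards [hm] with t ht
      have h1 := N_lip (a + t) (a + 0)
      have h2 : |e * (N (a + t) - N (a + 0))| ≤ |t| := by
        rw [abs_mul, habs, one_mul]; simpa using h1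
      have := (abs_le.1 h2).1
      have := abs_nonneg t
      nlinarith
    have h1 : -2 ≤ p := by
      have ht := (hasDerivAt_iff_tendsto_slope_zero.1 hψ).mono_left
        (nhdsWithin_mono _ (show Set.Ioi (0 : ℝ) ⊆ {0}ᶜ from fun t ht => ne_of_gt ht))
      refine ge_of_tendsto ht ?_
      filter_upwards [self_mem_nhdsWithin, nhdsWithin_le_nhds hlow] with t ht0 ht1
      have ht0' : 0 < t := ht0
      rw [abs_of_pos ht0'] at ht1
      rw [zero_add, smul_eq_mul, inv_mul_eq_div, le_div_iff₀ ht0']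
      linarith
    have h2 : p ≤ 2 := by
      have ht := (hasDerivAt_iff_tendsto_slope_zero.1 hψ).mono_left
        (nhdsWithin_mono _ (show Set.Iio (0 : ℝ) ⊆ {0}ᶜ from fun t ht => ne_of_lt ht))
      refine le_of_tendsto ht ?_
      filter_upwards [self_mem_nhdsWithin, nhdsWithin_le_nhds hlow] with t ht0 ht1
      have ht0' : t < 0 := ht0
      rw [abs_of_neg ht0'] at ht1
      rw [zero_add, smul_eq_mul, inv_mul_eq_div, div_le_iff_of_neg ht0']
      linarith
    have : p ^ 2 - 4 ≤ 0 := by nlinarith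
    nlinarith [sq_nonneg p]
  · obtain ⟨s, hs, hev⟩ := (N_loc a).2 h
    have hev' : ∀ᶠ t in 𝓝 (0 : ℝ), N (a + t) = N a + s * t := by
      have hc : Tendsto (fun t : ℝ => a + t) (𝓝 0) (𝓝 a) := by
        simpa using (continuous_const.add continuous_id).tendsto (0 : ℝ) (f := fun t : ℝ => a + t)
      filter_upwards [hc.eventually hev] with t ht
      simpa using ht
    have hd : HasDerivAt (fun t => e * 2 * N (a + t) - ψ t) (e * 2 * s - p) 0 := by
      have h1 : HasDerivAt (fun t => e * 2 * (N a + s * t) - ψ t) (e * 2 * s - p) 0 := by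
        have := (((hasDerivAt_id (0 : ℝ)).const_mul s).const_add (N a)).const_mul (e * 2)
        simpa using this.fun_sub hψ
      refine h1.congr_of_eventuallyEq ?_
      filter_upwards [hev'] with t ht
      rw [ht]
    have h0 := hm.hasDerivAt_eq_zero hd
    have hp : p = e * 2 * s := by linarith
    have : p ^ 2 - 4 = 0 := by
      rw [hp, mul_pow, mul_pow, he, hs]; norm_num
    rw [this, zero_mul]

variable {n : ℕ}

def Ham (i : Fin n) (x : T n) (p : E n) : ℝ :=
  (p i ^ 2 - 4) * (p i ^ 2 - ‖x i + x i‖ ^ 2) + (‖p‖ ^ 2 - p i ^ 2)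

lemma Ham_ge (i : Fin n) (x : T n) (p : E n) : ‖p‖ ^ 2 - 9 ≤ Ham i x p := by
  unfold Ham
  have h1 : ‖x i + x i‖ ≤ 1 / 2 := by
    simpa using AddCircle.norm_le_half_period (p := (1 : ℝ)) (x := x i + x i) one_ne_zero
  have h0 := norm_nonneg (x i + x i)
  have h2 : ‖x i + x i‖ ^ 2 ≤ 1 := by nlinarith
  have h3 := sq_nonneg ‖x i + x i‖
  have h4 := sq_nonneg (p i)
  nlinarith [sq_nonneg (p i ^ 2 - 3), mul_nonneg h4 (sub_nonneg.2 h2)]

lemma line_deriv (φ : E n → ℝ) (hφ : ContDiff ℝ 1 φ) (y v : E n) :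
    HasDerivAt (fun t : ℝ => φ (y + t • v)) (inner ℝ (gradient φ y) v) 0 := by
  have h1 : HasFDerivAt φ (fderiv ℝ φ y) (y + (0 : ℝ) • v) := by
    simpa using (hφ.differentiable one_ne_zero y).hasFDerivAt
  have h2 : HasDerivAt (fun t : ℝ => y + t • v) v 0 := by
    simpa using ((hasDerivAt_id (0 : ℝ)).smul_const v).const_add y
  have := h1.comp_hasDerivAt (0 : ℝ) h2
  have e : inner ℝ (gradient φ y) v = fderiv ℝ φ y v := by
    simp [gradient]
  rw [e]
  exact this

lemma line_max (f : E n → ℝ) (y v : E n) (h : IsLocalMax f y) :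
    IsLocalMax (fun t : ℝ => f (y + t • v)) 0 := by
  have hc : ContinuousAt (fun t : ℝ => y + t • v) 0 := by fun_prop
  have h' : IsLocalMax f ((fun t : ℝ => y + t • v) 0) := by simpa using h
  exact IsLocalMax.comp_continuous (g := fun t : ℝ => y + t • v) h' hc

lemma tent_sub (i : Fin n) (e : ℝ) (he : e ^ 2 = 1) :
    IsSub (Ham i) 0 (fun x => e * 2 * ‖x i‖) := by
  refine ⟨by fun_prop, fun φ hφ y hy => ?_⟩
  set g := gradient φ y with hg
  have hj : ∀ j, j ≠ i → g j = 0 := by
    intro j hji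
    have h1 := line_max _ y (EuclideanSpace.single j 1) hy
    have h2 := line_deriv φ hφ y (EuclideanSpace.single j 1)
    have h3 : (fun t : ℝ => e * 2 * ‖proj (y + t • EuclideanSpace.single j (1 : ℝ)) i‖ -
        φ (y + t • EuclideanSpace.single j 1)) =
        fun t : ℝ => e * 2 * ‖proj y i‖ - φ (y + t • EuclideanSpace.single j 1) := by
      funext t
      simp [proj, hji.symm]
    simp only at h1
    rw [h3] at h1
    have := h1.hasDerivAt_eq_zero (h2.const_sub _)
    simpa [← hg, EuclideanSpace.inner_single_right] using this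
  have hn : ‖g‖ ^ 2 = g i ^ 2 := by
    rw [EuclideanSpace.real_norm_sq_eq, Finset.sum_eq_single i]
    · intro j _ hji; simp [hj j hji]
    · simp
  have h1 := line_max _ y (EuclideanSpace.single i 1) hy
  have h2 := line_deriv φ hφ y (EuclideanSpace.single i 1)
  have h3 : (fun t : ℝ => e * 2 * ‖proj (y + t • EuclideanSpace.single i (1 : ℝ)) i‖ -
      φ (y + t • EuclideanSpace.single i 1)) =
      fun t : ℝ => e * 2 * N (y i + t) - φ (y + t • EuclideanSpace.single i 1) := by
    funext t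
    simp [proj, N]
  simp only at h1
  rw [h3] at h1
  have := one_dim (y i) _ e he _ h2 h1
  unfold Ham
  rw [hn, sub_self, add_zero]
  simpa [← hg, EuclideanSpace.inner_single_right, proj] using this

lemma proj_cont : Continuous (proj : E n → T n) := by
  unfold proj
  refine continuous_pi fun i => ?_
  exact (AddCircle.continuous_mk' (1 : ℝ)).comp (by fun_prop)

lemma proj_surj (x : T n) : ∃ y : E n, proj y = x := by
  choose f hf using fun i => QuotientAddGroup.mk_surjective (x i)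
  exact ⟨WithLp.toLp 2 f, funext fun i => hf i⟩

lemma sub_lip (i : Fin n) (u : T n → ℝ) (hu : IsSub (Ham i) 0 u) (x y : E n) :
    u (proj y) - u (proj x) ≤ 5 * ‖y - x‖ := by
  obtain ⟨B, hB⟩ : ∃ B : ℝ, ∀ z, |u z| ≤ B := by
    obtain ⟨B, hB⟩ := (isCompact_range hu.1).isBounded.exists_norm_le
    exact ⟨B, fun z => hB _ ⟨z, rfl⟩⟩
  have hU : Continuous fun z : E n => u (proj z) := hu.1.comp proj_cont
  have step : ∀ δ : ℝ, 0 < δ → ∃ z : E n, ‖z - x‖ ≤ δ ∧
      u (proj y) - 5 * (δ + ‖y - x‖) ≤ u (proj z) := by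
    intro δ hδ
    set φ : E n → ℝ := fun z => 5 * Real.sqrt (δ ^ 2 + ‖z - x‖ ^ 2) with hφ
    have hpos : ∀ z : E n, 0 < δ ^ 2 + ‖z - x‖ ^ 2 := fun z => by positivity
    have hC : ContDiff ℝ 1 φ := by
      refine contDiff_const.mul (ContDiff.sqrt ?_ fun z => (hpos z).ne')
      exact contDiff_const.add ((contDiff_id.sub contDiff_const).norm_sq ℝ)
    have hge : ∀ z : E n, 5 * ‖z - x‖ ≤ φ z := fun z => by
      have : ‖z - x‖ ≤ Real.sqrt (δ ^ 2 + ‖z - x‖ ^ 2) :=
        Real.le_sqrt_of_sq_le (by nlinarith [sq_nonneg δ])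
      simp only [hφ]; linarith
    have hle : ∀ z : E n, φ z ≤ 5 * (δ + ‖z - x‖) := fun z => by
      have : Real.sqrt (δ ^ 2 + ‖z - x‖ ^ 2) ≤ δ + ‖z - x‖ :=
        Real.sqrt_le_iff.2 ⟨by positivity, by nlinarith [norm_nonneg (z - x)]⟩
      simp only [hφ]; linarith
    obtain ⟨z, hz⟩ : ∃ z : E n, ∀ w, u (proj w) - φ w ≤ u (proj z) - φ z := by
      refine (hU.sub hC.continuous).exists_forall_ge ?_
      have h1 : Tendsto (fun w : E n => ‖w - x‖) (cocompact (E n)) atTop := by
        simpa [dist_eq_norm] using tendsto_dist_right_cocompact_atTop x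
      have h2 : Tendsto (fun w : E n => B - 5 * ‖w - x‖) (cocompact (E n)) atBot := by
        refine tendsto_atBot_add_const_left _ B ?_
        exact tendsto_neg_atTop_atBot.comp (h1.const_mul_atTop (by norm_num))
      refine tendsto_atBot_mono (fun w => ?_) h2
      have := (abs_le.1 (hB (proj w))).2
      have := hge w
      simp only [Pi.sub_apply]; linarith
    have hH := hu.2 φ hC z (Filter.Eventually.of_forall hz)
    have hg : ‖gradient φ z‖ ≤ 3 := by
      have := Ham_ge i (proj z) (gradient φ z)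
      nlinarith [norm_nonneg (gradient φ z)]
    have hd := line_deriv φ hC z (z - x)
    set r := ‖z - x‖ with hr
    have hd2 : HasDerivAt (fun t : ℝ => φ (z + t • (z - x)))
        (5 * (r ^ 2 / Real.sqrt (δ ^ 2 + r ^ 2))) 0 := by
      have e1 : (fun t : ℝ => φ (z + t • (z - x))) =
          fun t : ℝ => 5 * Real.sqrt (δ ^ 2 + (1 + t) ^ 2 * r ^ 2) := by
        funext t
        have : z + t • (z - x) - x = (1 + t) • (z - x) := by module
        simp only [hφ, this, norm_smul, mul_pow, Real.norm_eq_abs, sq_abs, hr]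
      rw [e1]
      have h1 : HasDerivAt (fun t : ℝ => δ ^ 2 + (1 + t) ^ 2 * r ^ 2) (2 * r ^ 2) 0 := by
        have := ((((hasDerivAt_id (0 : ℝ)).const_add 1).pow 2).mul_const (r ^ 2)).const_add (δ ^ 2)
        simpa using this
      have h2 := (h1.sqrt (by have := hpos z; simpa using this.ne')).const_mul 5
      have e2 : 5 * (r ^ 2 / Real.sqrt (δ ^ 2 + r ^ 2)) =
          5 * (2 * r ^ 2 / (2 * Real.sqrt (δ ^ 2 + (1 + 0) ^ 2 * r ^ 2))) := by
        simp only [add_zero, one_pow, one_mul]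
        rw [mul_div_mul_left _ _ two_ne_zero]
      rw [e2]
      exact h2
    have heq := hd.unique hd2
    have hcs : inner ℝ (gradient φ z) (z - x) ≤ 3 * r :=
      (real_inner_le_norm _ _).trans (mul_le_mul_of_nonneg_right hg (norm_nonneg _))
    have hr0 : 0 ≤ r := norm_nonneg _
    have hs : 0 < Real.sqrt (δ ^ 2 + r ^ 2) := Real.sqrt_pos.2 (hpos z)
    have hs2 : Real.sqrt (δ ^ 2 + r ^ 2) ≤ δ + r :=
      Real.sqrt_le_iff.2 ⟨by positivity, by nlinarith⟩
    refine ⟨z, ?_, ?_⟩
    · rw [heq, ← mul_div_assoc, div_le_iff₀ hs] at hcs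
      have hsq := Real.sq_sqrt (hpos z).le
      by_contra hc
      have hc' : δ < r := not_le.1 hc
      have hrp : 0 < r := hδ.trans hc'
      have h5 : 5 * r ≤ 3 * Real.sqrt (δ ^ 2 + r ^ 2) := by
        refine le_of_mul_le_mul_left ?_ hrp
        nlinarith
      have h6 : (5 * r) ^ 2 ≤ (3 * Real.sqrt (δ ^ 2 + r ^ 2)) ^ 2 :=
        pow_le_pow_left₀ (by positivity) h5 2
      rw [mul_pow, mul_pow, hsq] at h6
      nlinarith
    · have h1 := hz y
      have h2 := hle y
      have h3 := hge z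
      linarith
  refine le_of_forall_pos_le_add fun ε hε => ?_
  obtain ⟨η, hη, hcont⟩ := Metric.continuous_iff.1 hU x (ε / 2) (by linarith)
  obtain ⟨z, hz1, hz2⟩ := step (min (η / 2) (ε / 10)) (by positivity)
  have h1 := hcont z (by
    rw [dist_eq_norm]; exact hz1.trans_lt ((min_le_left _ _).trans_lt (by linarith)))
  rw [Real.dist_eq] at h1
  have h2 := (abs_lt.1 h1).2
  have h3 := min_le_right (η / 2) (ε / 10)
  linarith

theorem result (n : ℕ) (hn : 0 < n) :
    ∃ (H : T n → E n → ℝ) (c₀ : ℝ) (S : T n → T n → ℝ),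
      Continuous (Function.uncurry H) ∧ Superlinear H ∧
      IsGLB {c | ∃ u, IsSub H c u} c₀ ∧
      (∀ x y, IsLUB {r | ∃ u, IsSub H c₀ u ∧ r = u y - u x} (S x y)) ∧
      ∀ x, ¬ SuperAt H c₀ (S x) x := by
  set i : Fin n := ⟨0, hn⟩
  have hne : ∀ x y : T n, {r | ∃ u, IsSub (Ham i) 0 u ∧ r = u y - u x}.Nonempty :=
    fun x y => ⟨_, _, tent_sub i 1 (by norm_num), rfl⟩
  have hbd : ∀ x y : T n, BddAbove {r | ∃ u, IsSub (Ham i) 0 u ∧ r = u y - u x} := by
    intro x y
    obtain ⟨x', rfl⟩ := proj_surj x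
    obtain ⟨y', rfl⟩ := proj_surj y
    refine ⟨5 * ‖y' - x'‖, ?_⟩
    rintro r ⟨u, hu, rfl⟩
    exact sub_lip i u hu x' y'
  refine ⟨Ham i, 0, fun x y => sSup {r | ∃ u, IsSub (Ham i) 0 u ∧ r = u y - u x}, ?_, ?_, ?_,
    fun x y => isLUB_csSup (hne x y) (hbd x y), ?_⟩
  · unfold Ham Function.uncurry
    fun_prop
  · intro M
    refine ⟨|M| + 3, fun x p hp => le_trans ?_ (Ham_ge i x p)⟩
    have := le_abs_self M
    have := abs_nonneg M
    nlinarith
  · refine IsLeast.isGLB ⟨⟨_, tent_sub i 1 (by norm_num)⟩, ?_⟩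
    rintro c ⟨u, hu⟩
    obtain ⟨x, -, hx⟩ := isCompact_univ.exists_isMaxOn Set.univ_nonempty hu.1.continuousOn
    obtain ⟨y, rfl⟩ := proj_surj x
    have := hu.2 (fun _ => 0) contDiff_const y (Filter.Eventually.of_forall fun z => by
      simpa using hx (Set.mem_univ (proj z)))
    refine le_trans ?_ this
    simp [Ham]
  · intro x hx
    obtain ⟨y, rfl⟩ := proj_surj x
    set φ : E n → ℝ := fun z => 3 / 2 * z i with hφ
    have hC : ContDiff ℝ 1 φ := by
      refine contDiff_const.mul ?_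
      exact (EuclideanSpace.proj i : E n →L[ℝ] ℝ).contDiff
    have hg : gradient φ y = EuclideanSpace.single i (3 / 2) := by
      refine ext_inner_right ℝ fun v => ?_
      refine (line_deriv φ hC y v).unique ?_
      have := (((hasDerivAt_id (0 : ℝ)).mul_const (v i)).const_add (y i)).const_mul (3 / 2)
      simpa [hφ, EuclideanSpace.inner_single_left, mul_comm] using this
    have hloc : ∀ᶠ z in 𝓝 y, |N (z i) - N (y i)| = |z i - y i| :=
      (show ContinuousAt (fun z : E n => z i) y by fun_prop).eventually (N_loc (y i)).1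
    have := hx φ hC y rfl (by
      filter_upwards [hloc] with z hz
      have h0 : sSup {r | ∃ u, IsSub (Ham i) 0 u ∧ r = u (proj y) - u (proj y)} ≤ 0 :=
        csSup_le (hne _ _) (by rintro r ⟨u, -, rfl⟩; simp)
      have h1 := le_csSup (hbd (proj y) (proj z)) ⟨_, tent_sub i 1 (by norm_num), rfl⟩
      have h2 := le_csSup (hbd (proj y) (proj z)) ⟨_, tent_sub i (-1) (by norm_num), rfl⟩
      have e1 : ‖proj z i‖ = N (z i) := rfl
      have e2 : ‖proj y i‖ = N (y i) := rfl
      simp only [e1, e2] at h1 h2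
      have h3 := le_abs_self (z i - y i)
      have h4 := abs_nonneg (z i - y i)
      simp only [hφ]
      rcases abs_cases (N (z i) - N (y i)) with h | h <;> linarith [h.1])
    rw [hg] at this
    have h1 : ‖proj y i + proj y i‖ ≤ 1 / 2 := by
      simpa using AddCircle.norm_le_half_period (p := (1 : ℝ)) (x := proj y i + proj y i)
        one_ne_zero
    have h0 := norm_nonneg (proj y i + proj y i)
    simp [Ham] at this
    nlinarith

end Pool.Agent.Results.MP_12cf7c_an.NoPoint
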